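import Pool.Agent.Helper80.GH.Criterion

/-!
# A criterion for trees to decompose `K_{n,n}`

Special cases, proved in `Pool/Agent/Helper80/GH/Criterion.lean`: the degrees in one colour class
divide `n` (`divisor_degrees`); `n` is a power of two and every vertex of one colour class is
adjacent to a leaf (`two_pow_leaf`); `n` is a power of two and some vertex is adjacent to at least
`n / 2` leaves (`two_pow_star`).
-/

namespace Pool.Agent.Helper80.Reserve.DivisorDegrees

open Finset Pool.Agent.Helper19.GH Pool.Agent.Helper80.GH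

/-- Let `T` be a tree with `n` edges, let `B` be one of its two colour classes and let `x` be a
vertex outside `B`. Suppose that to every vertex `b` of `B` one can attach a set `L b` of leaves,
`|L b| < deg b`, such that the sets `L b` are pairwise disjoint, every leaf in `L b` is adjacent to
`x` or to a neighbour of `b`, and `deg b + |L b|` divides `n`. Then `K_{n,n}` decomposes into copies
of `T`. -/
theorem result (V : Type) [Fintype V] [DecidableEq V] (T : SimpleGraph V) [DecidableRel T.Adj]
    (n : ℕ) (B : Finset V) (x : V) (L : V → Finset V) (hT : T.IsTree)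
    (hn : Fintype.card V = n + 1) (hB : ∀ u w, T.Adj u w → (u ∈ B ↔ w ∉ B)) (hx : x ∉ B)
    (hL1 : ∀ b ∈ B, (L b).card < T.degree b) (hL2 : ∀ b ∈ B, T.degree b + (L b).card ∣ n)
    (hL3 : ∀ b ∈ B, ∀ u ∈ L b, T.degree u = 1 ∧ (T.Adj x u ∨ ∃ y, T.Adj b y ∧ T.Adj y u))
    (hL4 : ∀ b ∈ B, ∀ b' ∈ B, b ≠ b' → Disjoint (L b) (L b')) :
    Decomposes T (completeBipartiteGraph (Fin n) (Fin n)) :=
  criterion V T n B x L hT hn hB hx hL1 hL2 hL3 hL4

end Pool.Agent.Helper80.Reserve.DivisorDegrees
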